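import Mathlib
import Pool.Agent.R881.NoBump

/-!
# The sphere of `C[0,1]` admits no differentiable blid maps

For every `r > 0` and every `q ∈ {1, 2, …, ∞}` the sphere `S_r = {x : ‖x‖ = r}` of `C[0,1]`
does not admit `C^q` blid maps.  A single neighbourhood of the sphere, `X ∖ {0}`, works
against all Fréchet differentiable maps.
-/

open Filter Topology Set

namespace Pool.Agent.Results.MP_a52dbe_an.NoBlidMap

open Pool.Agent.R881.NoBump

/-- `H` is a blid map at `S` for the neighbourhood `U` (without smoothness requirement): it maps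
the whole space into `U` and is the identity on some smaller neighbourhood of `S`. -/
def IsBlidFor (S U : Set C(unitInterval, ℝ)) (H : C(unitInterval, ℝ) → C(unitInterval, ℝ)) :
    Prop :=
  (∀ x, H x ∈ U) ∧ ∃ V ∈ 𝓝ˢ S, V ⊆ U ∧ ∀ x ∈ V, H x = x

/-- `S` admits `C^q` blid maps: for every neighbourhood `U` of `S` there is a `C^q` blid map at
`S` for `U`. -/
def AdmitsBlid (q : ℕ∞) (S : Set C(unitInterval, ℝ)) : Prop :=
  ∀ U ∈ 𝓝ˢ S, ∃ H : C(unitInterval, ℝ) → C(unitInterval, ℝ), ContDiff ℝ q H ∧ IsBlidFor S U H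

/-- **No sphere of `C[0,1]` admits `C^q` blid maps, for any `q ∈ {1, 2, …, ∞}`**; moreover, for
every `c` with `‖c‖ < r` there is not even a Fréchet differentiable blid map at the sphere for its
neighbourhood `X ∖ {c}`. -/
theorem result (r : ℝ) (hr : 0 < r) :
    (∀ q : ℕ∞, 1 ≤ q → ¬ AdmitsBlid q (Metric.sphere (0 : C(unitInterval, ℝ)) r)) ∧
      ∀ c : C(unitInterval, ℝ), ‖c‖ < r →
        ({c}ᶜ : Set C(unitInterval, ℝ)) ∈ 𝓝ˢ (Metric.sphere (0 : C(unitInterval, ℝ)) r) ∧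
        ¬ ∃ H : C(unitInterval, ℝ) → C(unitInterval, ℝ), Differentiable ℝ H ∧
          IsBlidFor (Metric.sphere 0 r) {c}ᶜ H := by
  have key : ∀ c : C(unitInterval, ℝ), ‖c‖ < r →
      ¬ ∃ H : C(unitInterval, ℝ) → C(unitInterval, ℝ), Differentiable ℝ H ∧
          IsBlidFor (Metric.sphere 0 r) {c}ᶜ H := by
    rintro c hc ⟨H, hH, hU, V, hV, -, hid⟩
    exact hU c (map_zero_of_id_near_sphere hH hr hV hid hc)
  have hnhd : ∀ c : C(unitInterval, ℝ), ‖c‖ < r →
      ({c}ᶜ : Set C(unitInterval, ℝ)) ∈ 𝓝ˢ (Metric.sphere (0 : C(unitInterval, ℝ)) r) := by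
    intro c hc
    rw [isOpen_compl_singleton.mem_nhdsSet]
    intro x hx hxc
    rw [mem_singleton_iff] at hxc
    subst hxc
    rw [mem_sphere_zero_iff_norm] at hx
    exact hc.ne hx
  refine ⟨fun q hq hadm => ?_, fun c hc => ⟨hnhd c hc, key c hc⟩⟩
  have h0 : ‖(0 : C(unitInterval, ℝ))‖ < r := by rw [norm_zero]; exact hr
  obtain ⟨H, hH, hblid⟩ := hadm _ (hnhd 0 h0)
  refine key 0 h0 ⟨H, hH.differentiable ?_, hblid⟩
  intro h
  have : q = 0 := by exact_mod_cast h
  rw [this] at hq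
  exact absurd hq (by simp)

end Pool.Agent.Results.MP_a52dbe_an.NoBlidMap
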