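import Mathlib
import Pool.Agent.Y436.TS.Asp

/-!
# No smooth blid maps at a sphere of C[0,1]
-/

set_option autoImplicit false

namespace Pool.Agent.Results.MP_a52dbe_an.SphereNoBlid

open Set Metric Topology Filter unitInterval

/-- `H` is a `C^q` blid map at `S` for the neighbourhood `U` of `S`, in the space `C[0,1]`:
`H` is of class `C^q`, takes all its values in `U`, and is the identity on some neighbourhood
`V ⊆ U` of `S`. -/
def IsBlidMap (q : ℕ∞) (S U : Set C(I, ℝ)) (H : C(I, ℝ) → C(I, ℝ)) : Prop :=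
  ContDiff ℝ q H ∧ (∀ x, H x ∈ U) ∧ ∃ V ∈ 𝓝ˢ S, V ⊆ U ∧ ∀ x ∈ V, H x = x

/-- `S` admits `C^q` blid maps: there is one for every neighbourhood `U` of `S`. -/
def AdmitsBlidMaps (q : ℕ∞) (S : Set C(I, ℝ)) : Prop :=
  ∀ U ∈ 𝓝ˢ S, ∃ H : C(I, ℝ) → C(I, ℝ), IsBlidMap q S U H

/-- evaluation functionals are 1-separated -/
lemma delta_sep {s t : I} (hst : s ≠ t) : ∃ f : C(I, ℝ), ‖f‖ ≤ 1 ∧ f s - f t = 1 := by
  obtain ⟨f, hf0, hf1, hf⟩ := exists_continuous_zero_one_of_isClosed (isClosed_singleton (x := t))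
    (isClosed_singleton (x := s)) (by simpa using hst.symm)
  refine ⟨f, ?_, ?_⟩
  · rw [ContinuousMap.norm_le _ zero_le_one]
    intro x
    rw [Real.norm_eq_abs, abs_of_nonneg (hf x).1]
    exact (hf x).2
  · have h0 : f t = 0 := by simpa using hf0 (mem_singleton t)
    have h1 : f s = 1 := by simpa using hf1 (mem_singleton s)
    rw [h0, h1, sub_zero]

/-- a normed space with an uncountable 1-separated family of functionals has nonseparable dual -/
lemma not_sep_of {X : Type} [NormedAddCommGroup X] [NormedSpace ℝ X] (D : I → (X →L[ℝ] ℝ))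
    (hD : ∀ s t : I, s ≠ t → ∃ f : X, ‖f‖ ≤ 1 ∧ D s f - D t f = 1) :
    ¬ TopologicalSpace.SeparableSpace (X →L[ℝ] ℝ) := by
  intro h
  have hD1 : ∀ s t : I, s ≠ t → 1 ≤ ‖D s - D t‖ := by
    intro s t hst
    obtain ⟨f, hf1, hf2⟩ := hD s t hst
    have h := (D s - D t).le_opNorm f
    have h3 : (D s - D t) f = 1 := hf2
    rw [h3, norm_one] at h
    calc (1 : ℝ) ≤ _ := h
      _ ≤ ‖D s - D t‖ * 1 := mul_le_mul_of_nonneg_left hf1 (norm_nonneg _)
      _ = _ := mul_one _
  have hsc : SecondCountableTopology (X →L[ℝ] ℝ) :=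
    UniformSpace.secondCountable_of_separable _
  have hinj : Function.Injective D := by
    intro s t hst
    by_contra hne
    have h1 := hD1 s t hne
    rw [hst, sub_self, norm_zero] at h1
    linarith
  have hdisc : DiscreteTopology (range D) := by
    refine DiscreteTopology.of_forall_le_dist zero_lt_one ?_
    rintro ⟨_, s, rfl⟩ ⟨_, t, rfl⟩ hne
    have hst : s ≠ t := by
      rintro rfl
      exact hne rfl
    rw [Subtype.dist_eq, dist_eq_norm]
    exact hD1 s t hst
  have hc : Countable (range D) := TopologicalSpace.separableSpace_iff_countable.1 inferInstance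
  have hI : Countable I := by
    let φ : I → range D := fun t => ⟨D t, mem_range_self t⟩
    have hφ : Function.Injective φ := fun s t hst => hinj (congrArg Subtype.val hst)
    exact hφ.countable
  have h3 : Cardinal.mk I = Cardinal.continuum := Cardinal.mk_Icc_real zero_lt_one
  have h4 : Cardinal.mk I ≤ Cardinal.aleph0 := Cardinal.mk_le_aleph0
  rw [h3] at h4
  exact absurd Cardinal.aleph0_lt_continuum (not_lt.2 h4)

/-- `C[0,1]` has no Fréchet differentiable bump function -/
lemma no_bump : ¬ Pool.Agent.Y436.TS.FBump C(I, ℝ) := by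
  intro h
  refine not_sep_of (X := C(I, ℝ)) (fun t => ContinuousMap.evalCLM ℝ t) (fun s t hst => ?_)
    (Pool.Agent.Y436.TS.sep_dual h.frg)
  exact delta_sep hst

/-- rigidity: a Fréchet differentiable map which is the identity near the sphere is the identity
on the whole closed ball -/
theorem rigid {r : ℝ} {H : C(I, ℝ) → C(I, ℝ)} (hH : Differentiable ℝ H)
    (hid : ∀ᶠ x in 𝓝ˢ (sphere (0 : C(I, ℝ)) r), H x = x) {x₀ : C(I, ℝ)} (hx₀ : ‖x₀‖ ≤ r) :
    H x₀ = x₀ := by
  by_contra hne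
  obtain ⟨t, ht⟩ : ∃ t, H x₀ t ≠ x₀ t := by
    by_contra hcon
    push Not at hcon
    exact hne (ContinuousMap.ext hcon)
  apply no_bump
  let g : C(I, ℝ) → ℝ := fun x => H x t - x t
  have hg : Differentiable ℝ g := by
    have h1 : Differentiable ℝ fun x => (ContinuousMap.evalCLM ℝ t : C(I, ℝ) →L[ℝ] ℝ) (H x) :=
      (ContinuousMap.evalCLM ℝ t : C(I, ℝ) →L[ℝ] ℝ).differentiable.comp hH
    have h2 : Differentiable ℝ fun x => (ContinuousMap.evalCLM ℝ t : C(I, ℝ) →L[ℝ] ℝ) x :=
      (ContinuousMap.evalCLM ℝ t : C(I, ℝ) →L[ℝ] ℝ).differentiable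
    exact h1.sub h2
  rw [eventually_nhdsSet_iff_forall] at hid
  let b : C(I, ℝ) → ℝ := fun x => if ‖x‖ ≤ r then g x else 0
  refine ⟨b, ?_, ⟨x₀, ?_⟩, ?_⟩
  · intro x
    rcases lt_trichotomy ‖x‖ r with h | h | h
    · have h1 : ∀ᶠ y in 𝓝 x, b y = g y := by
        filter_upwards [continuous_norm.continuousAt.eventually_lt continuousAt_const h] with y hy
        simp only [b]
        rw [if_pos hy.le]
      exact (hg x).congr_of_eventuallyEq h1
    · have h1 : ∀ᶠ y in 𝓝 x, b y = 0 := by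
        filter_upwards [hid x (by simpa using h)] with y hy
        have h2 : g y = 0 := by
          simp only [g]
          rw [hy, sub_self]
        simp only [b]
        rw [h2, ite_self]
      exact (differentiableAt_const (0 : ℝ)).congr_of_eventuallyEq h1
    · have h1 : ∀ᶠ y in 𝓝 x, b y = 0 := by
        filter_upwards [continuousAt_const.eventually_lt continuous_norm.continuousAt h] with y hy
        simp only [b]
        rw [if_neg (not_le.2 hy)]
      exact (differentiableAt_const (0 : ℝ)).congr_of_eventuallyEq h1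
  · simp only [b]
    rw [if_pos hx₀]
    exact sub_ne_zero.2 ht
  · refine (isBounded_closedBall (x := (0 : C(I, ℝ))) (r := r)).subset ?_
    intro x hx
    rw [mem_closedBall_zero_iff]
    by_contra hcon
    exact hx (if_neg hcon)

/-- **No sphere of `C[0,1]` admits smooth blid maps.**  For every `r > 0` and every
`q ∈ {1,2,…,∞}` the sphere `S_r` does not admit `C^q` blid maps; more precisely, every Fréchet
differentiable map `H : C[0,1] → C[0,1]` that is the identity on a neighbourhood of `S_r` is the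
identity on the whole closed ball `‖x‖ ≤ r`. -/
theorem result (r : ℝ) (hr : 0 < r) :
    (∀ q : ℕ∞, 1 ≤ q → ¬ AdmitsBlidMaps q (sphere (0 : C(I, ℝ)) r)) ∧
    (∀ H : C(I, ℝ) → C(I, ℝ), Differentiable ℝ H →
      (∃ V ∈ 𝓝ˢ (sphere (0 : C(I, ℝ)) r), ∀ x ∈ V, H x = x) →
      ∀ x : C(I, ℝ), ‖x‖ ≤ r → H x = x) := by
  have h1 : ∀ H : C(I, ℝ) → C(I, ℝ), Differentiable ℝ H →
      (∃ V ∈ 𝓝ˢ (sphere (0 : C(I, ℝ)) r), ∀ x ∈ V, H x = x) →
      ∀ x : C(I, ℝ), ‖x‖ ≤ r → H x = x := by
    rintro H hH ⟨V, hV, hid⟩ x hx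
    exact rigid hH (mem_of_superset hV hid) hx
  refine ⟨?_, h1⟩
  intro q hq hA
  have hU : {x : C(I, ℝ) | x ≠ 0} ∈ 𝓝ˢ (sphere (0 : C(I, ℝ)) r) := by
    refine IsOpen.mem_nhdsSet isOpen_ne |>.2 ?_
    intro x hx hx0
    rw [mem_sphere_zero_iff_norm, hx0, norm_zero] at hx
    exact hr.ne hx
  obtain ⟨H, hH, hHU, V, hV, -, hid⟩ := hA _ hU
  have h3 : Differentiable ℝ H := hH.differentiable (by
    have : (1 : WithTop ℕ∞) ≤ (q : WithTop ℕ∞) := by exact_mod_cast hq
    intro h0
    rw [h0] at this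
    simp at this)
  exact hHU 0 (h1 H h3 ⟨V, hV, hid⟩ 0 (by rw [norm_zero]; exact hr.le))

end Pool.Agent.Results.MP_a52dbe_an.SphereNoBlid
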